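import Mathlib

namespace Pool.Agent.Results.MP_5a8271_pr.NoConstRate

open Filter Topology

/-- A standard discrete poset: a nonempty countable poset all of whose down-sets
`D[x] = {y | y ≤ x}` are finite. -/
def IsStdDiscrete (S : Type) [PartialOrder S] : Prop :=
  Nonempty S ∧ Countable S ∧ ∀ x : S, {y : S | y ≤ x}.Finite

/-- The upper probability function `F(x) = ∑_{y ≥ x} f(y)` of a density `f`. -/
noncomputable def upf {S : Type} [PartialOrder S] (f : S → ℝ) (x : S) : ℝ :=
  ∑' y : {y : S // x ≤ y}, f y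

/-- `f` is the density of a probability distribution on `S` which has constant rate `α`:
`F(x) > 0` and `f(x) = α F(x)` for all `x`. -/
def ConstRate {S : Type} [PartialOrder S] (f : S → ℝ) (α : ℝ) : Prop :=
  (∀ x, 0 ≤ f x) ∧ HasSum f 1 ∧ 0 < α ∧ ∀ x, 0 < upf f x ∧ f x = α * upf f x

/-- The poset: pairs `(n, i)` with `i ≤ n!`. -/
def P : Type := {p : ℕ × ℕ // p.2 ≤ p.1.factorial}

/-- `p < q` iff `q = (m, 0)` and the first coordinate of `p` is less than `m`. -/
instance : PartialOrder P where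
  le p q := p = q ∨ (q.1.2 = 0 ∧ p.1.1 < q.1.1)
  le_refl p := Or.inl rfl
  le_trans p q r := by
    rintro (rfl | ⟨h1, h2⟩) (rfl | ⟨h3, h4⟩)
    · exact Or.inl rfl
    · exact Or.inr ⟨h3, h4⟩
    · exact Or.inr ⟨h1, h2⟩
    · exact Or.inr ⟨h3, h2.trans h4⟩
  le_antisymm p q := by
    rintro (rfl | ⟨h1, h2⟩) h
    · rfl
    · rcases h with (rfl | ⟨h3, h4⟩)
      · rfl
      · omega

lemma le_iff (p q : P) : p ≤ q ↔ p = q ∨ (q.1.2 = 0 ∧ p.1.1 < q.1.1) := Iff.rfl

/-- the chain -/
def c (n : ℕ) : P := ⟨(n, 0), Nat.zero_le _⟩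

lemma lt_c (p : P) : p < c (p.1.1 + 1) := by
  refine lt_of_le_of_ne ((le_iff _ _).2 (Or.inr ⟨rfl, Nat.lt_succ_self _⟩)) ?_
  intro h
  have := congrArg (fun q : P => q.1.1) h
  simp [c] at this

lemma std : IsStdDiscrete P := by
  refine ⟨⟨c 0⟩, ?_, ?_⟩
  · unfold P
    infer_instance
  · intro x
    have hfin : ((Set.Iic (x.1.1)) ×ˢ (Set.Iic (x.1.1.factorial)) : Set (ℕ × ℕ)).Finite :=
      (Set.finite_Iic _).prod (Set.finite_Iic _)
    have h2 : (Subtype.val ⁻¹' ((Set.Iic (x.1.1)) ×ˢ (Set.Iic (x.1.1.factorial))) : Set P).Finite :=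
      hfin.preimage (Subtype.val_injective.injOn)
    refine h2.subset ?_
    rintro y (rfl | ⟨h3, h4⟩)
    · exact ⟨le_refl y.1.1, y.2⟩
    · exact ⟨h4.le, y.2.trans (Nat.factorial_le h4.le)⟩

lemma upf_eq {f : P → ℝ} (hf : Summable f) (p : P) : upf f p = f p + upf f (c (p.1.1 + 1)) := by
  have h1 : ({y : P | p ≤ y}) = {p} ∪ {y : P | c (p.1.1 + 1) ≤ y} := by
    ext y
    simp only [Set.mem_ofPred_eq, Set.mem_union, Set.mem_singleton_iff, le_iff]
    constructor
    · rintro (h | ⟨h, h'⟩)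
      · exact Or.inl h.symm
      · right
        by_cases h3 : y.1.1 = p.1.1 + 1
        · left
          apply Subtype.ext
          apply Prod.ext
          · exact h3.symm
          · exact h.symm
        · right
          refine ⟨h, ?_⟩
          change p.1.1 + 1 < y.1.1
          omega
    · rintro (h | h | ⟨h, h'⟩)
      · exact Or.inl h.symm
      · right
        rw [← h]
        exact ⟨rfl, Nat.lt_succ_self _⟩
      · right
        refine ⟨h, ?_⟩
        have : p.1.1 + 1 < y.1.1 := h'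
        omega
  have hd : Disjoint ({p} : Set P) {y : P | c (p.1.1 + 1) ≤ y} := by
    rw [Set.disjoint_singleton_left]
    intro h
    exact absurd (lt_of_lt_of_le (lt_c p) h) (lt_irrefl _)
  unfold upf
  have h2 := (hf.subtype ({p} : Set P)).tsum_union_disjoint hd (hf.subtype _)
  rw [← h1] at h2
  have h3 : (∑' y : ({p} : Set P), f y) = f p := tsum_singleton p f
  rw [h3] at h2
  exact h2

lemma no_rate (f : P → ℝ) (α : ℝ) : ¬ ConstRate f α := by
  rintro ⟨hf0, hf1, hα, hF⟩
  have hs := hf1.summable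
  have h1 : ∀ p, (1 - α) * upf f p = upf f (c (p.1.1 + 1)) := by
    intro p
    have := upf_eq hs p
    rw [(hF p).2] at this
    linarith
  have hα1 : 0 < 1 - α := by
    have h2 := h1 (c 0)
    have h3 := (hF (c 0)).1
    have h4 := (hF (c ((c 0).1.1 + 1))).1
    rw [← h2] at h4
    exact pos_of_mul_pos_left h4 h3.le
  have h2 : ∀ n, upf f (c n) = (1 - α) ^ n * upf f (c 0) := by
    intro n
    induction n with
    | zero => simp
    | succ n ih =>
      have := h1 (c n)
      have h3 : (c n).1.1 = n := rfl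
      rw [h3] at this
      rw [← this, ih]
      ring
  have h3 : ∀ p, f p = α * ((1 - α) ^ p.1.1 * upf f (c 0)) := by
    intro p
    rw [(hF p).2]
    congr 1
    rw [← h2]
    have h4 := h1 p
    have h5 := h1 (c p.1.1)
    have h6 : (c p.1.1).1.1 = p.1.1 := rfl
    rw [h6, ← h4] at h5
    exact (mul_left_cancel₀ hα1.ne' h5).symm
  have h4 : ∀ n : ℕ, (n.factorial : ℝ) * (α * ((1 - α) ^ n * upf f (c 0))) ≤ 1 := by
    intro n
    let e : Fin n.factorial ↪ P := ⟨fun i => ⟨(n, i.1), i.2.le⟩, fun i j h => by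
      have := congrArg (fun q : P => q.1.2) h
      exact Fin.ext this⟩
    have h5 := sum_le_hasSum (Finset.univ.map e) (fun i _ => hf0 i) hf1
    rw [Finset.sum_map] at h5
    have h6 : ∀ i : Fin n.factorial, f (e i) = α * ((1 - α) ^ n * upf f (c 0)) := fun i => h3 (e i)
    rw [Finset.sum_congr rfl (fun i _ => h6 i), Finset.sum_const, Finset.card_univ,
      Fintype.card_fin, nsmul_eq_mul] at h5
    exact h5
  have h5 := FloorSemiring.tendsto_pow_div_factorial_atTop ((1 - α)⁻¹)
  have hK : 0 < α * upf f (c 0) := mul_pos hα (hF (c 0)).1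
  have h6 := (tendsto_order.1 h5).2 _ hK
  obtain ⟨n, hn⟩ := h6.exists
  have h7 := h4 n
  have h8 : (0 : ℝ) < (n.factorial : ℝ) := by exact_mod_cast n.factorial_pos
  have h9 : (0 : ℝ) < (1 - α) ^ n := pow_pos hα1 n
  rw [inv_pow, div_lt_iff₀ h8] at hn
  have h10 : 1 < (1 - α) ^ n * (α * upf f (c 0) * n.factorial) := by
    have := mul_lt_mul_of_pos_left hn h9
    rwa [mul_inv_cancel₀ h9.ne'] at this
  nlinarith

/-- There is a standard discrete poset without maximal elements on which no distribution has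
constant rate. -/
theorem result : ∃ (S : Type) (_ : PartialOrder S), IsStdDiscrete S ∧ (∀ x : S, ¬ IsMax x) ∧
    ∀ (f : S → ℝ) (α : ℝ), ¬ ConstRate f α := by
  refine ⟨P, inferInstance, std, ?_, no_rate⟩
  intro x hx
  exact hx.not_lt (lt_c x)

end Pool.Agent.Results.MP_5a8271_pr.NoConstRate
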